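import Pool.Agent.H26.HBE.KRB

/-! MP_8352e3_an, hbe_modules, row KR0: the ground state. -/

set_option autoImplicit false

namespace Pool.Agent.H26.HBE
open MeasureTheory Set Filter Topology Pool.Agent.H80.HS Pool.Agent.H93.HQ Pool.Agent.H27.HB
open scoped ContDiff ENNReal

theorem inner_integrable {n : ℕ} {g h : H n → G n} (hg : MemLp g (ENNReal.ofReal 2))
    (hh : MemLp h (ENNReal.ofReal 2)) : Integrable (fun z => inner ℝ (g z) (h z)) := by
  have e2 : ENNReal.ofReal 2 = 2 := by simp
  rw [e2] at hg hh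
  have h1 : Integrable (fun z => ‖g z‖ * ‖h z‖) := MemLp.integrable_mul hg.norm hh.norm
  refine h1.mono (hg.1.inner hh.1) (Eventually.of_forall fun z => ?_)
  rw [Real.norm_eq_abs, Real.norm_of_nonneg (by positivity)]
  exact abs_real_inner_le_norm _ _

theorem quot_bdd {n : ℕ} (φ : H n → ℝ) (hφ : Tst φ) (hu : Continuous (u0 n)) :
    ∃ C : ℝ, ∀ z, |φ z / u0 n z| ≤ C := by
  have h1 : Continuous fun z => φ z / u0 n z := hφ.1.continuous.div hu fun z => (u0_pos z).ne'
  have h2 : HasCompactSupport fun z => φ z / u0 n z := by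
    refine hφ.2.mono ?_
    intro z hz
    rw [Function.mem_support] at hz ⊢
    intro h0
    apply hz
    rw [h0, zero_div]
  obtain ⟨C, hC⟩ := h2.exists_bound_of_continuous h1
  exact ⟨C, fun z => by rw [← Real.norm_eq_abs]; exact hC z⟩

theorem u0_cont {n : ℕ} : Continuous (u0 n) := by
  unfold u0
  refine Continuous.rpow_const ?_ fun z => Or.inl (ww_pos z).ne'
  unfold ww Pool.Agent.H93.HQ.sq
  fun_prop

theorem fphi_integrable (hWKE : T_WKE) {n : ℕ} (hn : 1 ≤ n) {f : H n → ℝ} {g : H n → G n}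
    (h : Cl 2 f g) (φ : H n → ℝ) (hφ : Tst φ) : Integrable (fun z => f z * φ z / ww z) := by
  obtain ⟨C, hC⟩ := quot_bdd φ hφ u0_cont
  have h1 : Integrable (fun z => f z / ww z * u0 n z) :=
    (hWKE n hn (fun _ => 0) (fun _ => 0) 0 0 (by simp) (by simp) f g h).2.2.1
  have h2 : Integrable (fun z => (φ z / u0 n z) * (f z / ww z * u0 n z)) := by
    refine h1.bdd_mul (c := C) ?_ (Eventually.of_forall fun z => ?_)
    · exact (hφ.1.continuous.div u0_cont fun z => (u0_pos z).ne').aestronglyMeasurable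
    · rw [Real.norm_eq_abs]
      exact hC z
  refine h2.congr (Eventually.of_forall fun z => ?_)
  have h3 := (u0_pos z).ne'
  have h4 := (ww_pos z).ne'
  show φ z / u0 n z * (f z / ww z * u0 n z) = f z * φ z / ww z
  field_simp

theorem pf_KR0 (hMOM : T_MOM) (hSEP : T_SEP) (hWKE : T_WKE) (hMEM : T_MEM) (hCLA : T_CLA)
    (hWIN : T_WIN) (hCLT : T_CLT) : T_KR0 := by
  intro n hn f g hWS
  have hn1 : (1 : ℝ) ≤ n := by exact_mod_cast hn
  have hn2 : (2 : ℝ) < 2 * n + 2 := by linarith
  have hre : (fun z : H n => (EE (fun _ : Fin n => 0) (fun _ => 0) 0 0 z).re) = u0 n := by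
    funext z
    rw [EE_zero, Complex.ofReal_re]
  have hu : Cl 2 (u0 n) (hg (u0 n)) := by
    have := (hMEM n hn (fun _ => 0) (fun _ => 0) 0 0 (by simp) (by simp)).1
    rwa [hre] at this
  -- the weak equation of `u0`
  have hu0w : ∀ φ : H n → ℝ, Tst φ →
      ∫ z, inner ℝ (hg (u0 n) z) (hg φ z) = 4 * (n : ℝ) ^ 2 * ∫ z, u0 n z * φ z / ww z := by
    intro φ hφ
    have h1 := (hWKE n hn (fun _ => 0) (fun _ => 0) 0 0 (by simp) (by simp) φ (hg φ)
      (hCLT n hn 2 one_lt_two hn2 φ hφ)).2.2.2.1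
    have h2 : (fun y : H n => (EE (fun _ : Fin n => 0) (fun _ => 0) 0 0 y).re) = u0 n := hre
    rw [h2] at h1
    have h3 : (fun z => inner ℝ (hg (u0 n) z) (hg φ z)) =
        fun z => inner ℝ (hg φ z) (hg (u0 n) z) := by
      funext z
      exact real_inner_comm _ _
    rw [h3, h1, ← integral_const_mul]
    congr 1
    funext z
    rw [LL_zero, Complex.ofReal_re]
    ring
  -- the constant
  have hden : Integrable (fun z : H n => u0 n z ^ 2 / ww z) := by
    have h1 := hWIN n ((n : ℝ) + 1) (by linarith)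
    refine h1.congr (Eventually.of_forall fun z => ?_)
    show ww z ^ (-((n : ℝ) + 1)) = u0 n z ^ 2 / ww z
    unfold u0
    rw [← Real.rpow_natCast, ← Real.rpow_mul (ww_pos z).le, div_eq_mul_inv,
      ← Real.rpow_neg_one, ← Real.rpow_add (ww_pos z)]
    congr 1
    push_cast
    ring
  have hdenpos : 0 < ∫ z : H n, u0 n z ^ 2 / ww z := by
    rw [integral_pos_iff_support_of_nonneg (fun z => by
      have := ww_pos z
      positivity) hden]
    have h1 : Function.support (fun z : H n => u0 n z ^ 2 / ww z) = univ := by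
      ext z
      simp only [Function.mem_support, mem_univ, iff_true]
      have h2 := u0_pos z
      have h3 := ww_pos z
      positivity
    rw [h1]
    exact (isOpen_univ.measure_pos volume univ_nonempty)
  obtain ⟨c, hc⟩ : ∃ c : ℝ, c = (∫ z, f z / ww z * u0 n z) / ∫ z : H n, u0 n z ^ 2 / ww z :=
    ⟨_, rfl⟩
  refine ⟨c, ?_⟩
  obtain ⟨f', hf'⟩ : ∃ f' : H n → ℝ, f' = fun z => 1 * f z + (-c) * u0 n z := ⟨_, rfl⟩
  obtain ⟨g', hg'⟩ : ∃ g' : H n → G n, g' = fun z => (1 : ℝ) • g z + (-c) • hg (u0 n) z :=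
    ⟨_, rfl⟩
  have hCl' : Cl 2 f' g' := by
    rw [hf', hg']
    exact hCLA n hn 2 one_lt_two hn2 f (u0 n) g (hg (u0 n)) 1 (-c) hWS.1 hu
  have hWS' : WS 0 f' g' := by
    refine ⟨hCl', fun φ hφ => ?_⟩
    have hφC := hCLT n hn 2 one_lt_two hn2 φ hφ
    have i1 := inner_integrable hWS.1.2.1 hφC.2.1
    have i2 := inner_integrable hu.2.1 hφC.2.1
    have j1 := fphi_integrable hWKE hn hWS.1 φ hφ
    have j2 := fphi_integrable hWKE hn hu φ hφ
    have e1 : (fun z => inner ℝ (g' z) (hg φ z)) =
        fun z => inner ℝ (g z) (hg φ z) - c * inner ℝ (hg (u0 n) z) (hg φ z) := by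
      funext z
      rw [hg']
      show inner ℝ ((1 : ℝ) • g z + (-c) • hg (u0 n) z) (hg φ z) = _
      rw [inner_add_left, real_inner_smul_left, real_inner_smul_left]
      ring
    have e2 : (fun z => f' z * φ z / ww z) =
        fun z => f z * φ z / ww z - c * (u0 n z * φ z / ww z) := by
      funext z
      rw [hf']
      ring
    rw [e1, e2, integral_sub i1 (i2.const_mul c), integral_sub j1 (j2.const_mul c),
      integral_const_mul, integral_const_mul, hWS.2 φ hφ, hu0w φ hφ]
    ring
  -- the moments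
  have hmo := mom_ind hMOM hn hWS' (by
    intro α β a b ha hb hcoef
    have h1 : ((8 * n * (a + b) + 16 * a * b : ℕ) : ℂ) = 0 := by
      rw [← hcoef]
      push_cast
      ring
    have h2 : 8 * n * (a + b) + 16 * a * b = 0 := by exact_mod_cast h1
    have h3 : a + b = 0 := by
      have h4 : 8 * n * (a + b) = 0 := by omega
      rcases Nat.mul_eq_zero.1 h4 with h5 | h5
      · omega
      · exact h5
    have ha0 : a = 0 := by omega
    have hb0 : b = 0 := by omega
    subst ha0
    subst hb0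
    have hα : α = fun _ => 0 := by
      funext j
      exact (Finset.sum_eq_zero_iff.1 (Nat.le_zero.1 ha)) j (Finset.mem_univ j)
    have hβ : β = fun _ => 0 := by
      funext j
      exact (Finset.sum_eq_zero_iff.1 (Nat.le_zero.1 hb)) j (Finset.mem_univ j)
    rw [hα, hβ]
    unfold mo
    have h6 : (fun z : H n => ((f' z / ww z : ℝ) : ℂ) *
        EE (fun _ : Fin n => 0) (fun _ => 0) 0 0 z) =
        fun z => ((f' z / ww z * u0 n z : ℝ) : ℂ) := by
      funext z
      rw [EE_zero]
      push_cast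
      rfl
    rw [h6, integral_complex_ofReal]
    have h7 : (fun z => f' z / ww z * u0 n z) =
        fun z => f z / ww z * u0 n z - c * (u0 n z ^ 2 / ww z) := by
      funext z
      rw [hf']
      ring
    have h8 : Integrable (fun z => f z / ww z * u0 n z) :=
      (hWKE n hn (fun _ => 0) (fun _ => 0) 0 0 (by simp) (by simp) f g hWS.1).2.2.1
    rw [h7, integral_sub h8 (hden.const_mul c), integral_const_mul, hc,
      div_mul_cancel₀ _ hdenpos.ne', sub_self, Complex.ofReal_zero])
  have hz := hSEP n hn f' hCl'.1 fun α β a b ha hb => hmo (a + b) α β a b rfl ha hb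
  filter_upwards [hz] with z hz
  rw [hf'] at hz
  have : 1 * f z + (-c) * u0 n z = 0 := hz
  linarith

end Pool.Agent.H26.HBE
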