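import Pool.Agent.H26.HBE.KRB

/-! MP_8352e3_an, hbe_modules, row KR1: the kernel of the second variation, centred. -/

set_option autoImplicit false

namespace Pool.Agent.H26.HBE
open MeasureTheory Set Filter Topology Pool.Agent.H80.HS Pool.Agent.H93.HQ Pool.Agent.H27.HB
open scoped ContDiff ENNReal

theorem nu_ne {n : ℕ} (z : H n) : nu z ≠ 0 := by
  intro h0
  have h1 := congrArg Complex.re h0
  have h2 : (nu z).re = 1 + Pool.Agent.H93.HQ.sq z := rfl
  rw [h2, Complex.zero_re] at h1
  have h3 := sq_nonneg' z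
  linarith

theorem rz_integrable (hZID : T_ZID) {n : ℕ} (hn : 1 ≤ n) {r : H n → ℝ} (hr : Integrable r)
    (i : Option (Fin n)) (b : Bool) : Integrable (fun z => r z * rz i b z) := by
  have h1 := hr.bdd_mul (c := 1) (f := rz i b)
    ((hZID n hn).1 i b).continuous.aestronglyMeasurable
    (Eventually.of_forall fun z => by
      rw [Real.norm_eq_abs]
      exact (hZID n hn).2.1 i b z)
  refine h1.congr (Eventually.of_forall fun z => ?_)
  exact mul_comm _ _

theorem zz_eq {n : ℕ} (i : Option (Fin n)) (z : H n) :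
    zz i z = (rz i true z : ℂ) + (rz i false z : ℂ) * Complex.I := by
  unfold rz
  simp only [if_true]
  exact (Complex.re_add_im (zz i z)).symm

theorem int_zz (hZID : T_ZID) {n : ℕ} (hn : 1 ≤ n) {r : H n → ℝ} (hr : Integrable r)
    (i : Option (Fin n)) (h : ∀ b, ∫ z, r z * rz i b z = 0) :
    Integrable (fun z => (r z : ℂ) * zz i z) ∧ ∫ z, (r z : ℂ) * zz i z = 0 := by
  have e1 : (fun z => (r z : ℂ) * zz i z) = fun z => ((r z * rz i true z : ℝ) : ℂ) +
      ((r z * rz i false z : ℝ) : ℂ) * Complex.I := by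
    funext z
    rw [zz_eq]
    push_cast
    ring
  have i1 : Integrable (fun z => ((r z * rz i true z : ℝ) : ℂ)) :=
    (rz_integrable hZID hn hr i true).ofReal
  have i2 : Integrable (fun z => ((r z * rz i false z : ℝ) : ℂ) * Complex.I) :=
    ((rz_integrable hZID hn hr i false).ofReal).mul_const _
  rw [e1]
  refine ⟨i1.add i2, ?_⟩
  rw [integral_add i1 i2, integral_mul_const, integral_complex_ofReal, integral_complex_ofReal,
    h true, h false]
  simp

theorem kr1_base (hZID : T_ZID) {n : ℕ} (hn : 1 ≤ n) {f : H n → ℝ}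
    (hr : Integrable (fun z => u0 n z / ww z * f z)) (h0 : ∫ z, u0 n z / ww z * f z = 0)
    (hz : ∀ i b, ∫ z, u0 n z / ww z * f z * rz i b z = 0) (α : Fin n → ℕ)
    (hα : (∑ j, α j) ≤ 1) : mo f α (fun _ => 0) 1 0 = 0 := by
  classical
  by_cases hall : ∀ j, α j = 0
  · have hα0 : α = fun _ => 0 := funext hall
    rw [hα0]
    unfold mo
    have e1 : (fun z : H n => ((f z / ww z : ℝ) : ℂ) *
        EE (fun _ : Fin n => 0) (fun _ => 0) 1 0 z) =
        fun z => (1 / 2 : ℂ) * (((u0 n z / ww z * f z : ℝ) : ℂ) * zz none z +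
          ((u0 n z / ww z * f z : ℝ) : ℂ)) := by
      funext z
      have h1 := nu_ne z
      have h2 : EE (fun _ : Fin n => 0) (fun _ => 0) 1 0 z = (u0 n z : ℂ) / nu z := by
        unfold EE
        simp
      have h3 : zz none z = 2 / nu z - 1 := rfl
      rw [h2, h3]
      push_cast
      field_simp
      ring
    obtain ⟨i1, i2⟩ := int_zz hZID hn hr none (fun b => hz none b)
    have i3 : Integrable (fun z => ((u0 n z / ww z * f z : ℝ) : ℂ)) := hr.ofReal
    rw [e1, integral_const_mul, integral_add i1 i3, i2, integral_complex_ofReal, h0]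
    simp
  · push Not at hall
    obtain ⟨j, hj⟩ := hall
    have hsum : α j + ∑ i ∈ Finset.univ.erase j, α i = ∑ i, α i :=
      Finset.add_sum_erase _ _ (Finset.mem_univ j)
    have hj1 : α j = 1 := by omega
    have hrest : ∑ i ∈ Finset.univ.erase j, α i = 0 := by omega
    have hi : ∀ i, i ≠ j → α i = 0 := fun i hi =>
      (Finset.sum_eq_zero_iff.1 hrest) i (Finset.mem_erase.2 ⟨hi, Finset.mem_univ i⟩)
    unfold mo
    have e1 : (fun z : H n => ((f z / ww z : ℝ) : ℂ) * EE α (fun _ => 0) 1 0 z) =
        fun z => (1 / 2 : ℂ) * (((u0 n z / ww z * f z : ℝ) : ℂ) * zz (some j) z) := by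
      funext z
      have h1 := nu_ne z
      have hp : ∏ i, zc i z ^ α i = zc j z := by
        rw [Finset.prod_eq_single j (fun i _ hij => by rw [hi i hij, pow_zero])
          (fun h => absurd (Finset.mem_univ j) h), hj1, pow_one]
      have h2 : EE α (fun _ => 0) 1 0 z = (u0 n z : ℂ) * zc j z / nu z := by
        unfold EE
        rw [hp]
        simp
      have h3 : zz (some j) z = 2 * zc j z / nu z := rfl
      rw [h2, h3]
      push_cast
      field_simp
    obtain ⟨i1, i2⟩ := int_zz hZID hn hr (some j) (fun b => hz (some j) b)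
    rw [e1, integral_const_mul, i2, mul_zero]

theorem pf_KR1 (hMOM : T_MOM) (hSEP : T_SEP) (hWKE : T_WKE) (hZID : T_ZID) : T_KR1 := by
  intro n hn f g hWS h0 hz
  have hr : Integrable (fun z => u0 n z / ww z * f z) := by
    have h1 : Integrable (fun z => f z / ww z * u0 n z) :=
      (hWKE n hn (fun _ => 0) (fun _ => 0) 0 0 (by simp) (by simp) f g hWS.1).2.2.1
    refine h1.congr (Eventually.of_forall fun z => ?_)
    show f z / ww z * u0 n z = u0 n z / ww z * f z
    ring
  have hmo := mom_ind hMOM hn hWS (by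
    intro α β a b ha hb hcoef
    have h1 : ((8 * n * (a + b) + 16 * a * b : ℕ) : ℂ) = ((8 * n : ℕ) : ℂ) := by
      push_cast at hcoef ⊢
      linear_combination hcoef
    have h2 : 8 * n * (a + b) + 16 * a * b = 8 * n := by exact_mod_cast h1
    have h3 : a + b = 1 := by
      rcases Nat.lt_or_ge (a + b) 1 with h4 | h4
      · have ha0 : a = 0 := by omega
        have hb0 : b = 0 := by omega
        rw [ha0, hb0] at h2
        omega
      · rcases Nat.lt_or_ge 1 (a + b) with h5 | h5
        · have h6 : 8 * n * 2 ≤ 8 * n * (a + b) := Nat.mul_le_mul_left _ h5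
          omega
        · omega
    rcases Nat.eq_zero_or_pos b with hb0 | hb0
    · have ha1 : a = 1 := by omega
      subst hb0
      subst ha1
      have hβ : β = fun _ => 0 := by
        funext j
        exact (Finset.sum_eq_zero_iff.1 (Nat.le_zero.1 hb)) j (Finset.mem_univ j)
      rw [hβ]
      exact kr1_base hZID hn hr h0 hz α ha
    · have ha0 : a = 0 := by omega
      have hb1 : b = 1 := by omega
      subst ha0
      subst hb1
      have hα : α = fun _ => 0 := by
        funext j
        exact (Finset.sum_eq_zero_iff.1 (Nat.le_zero.1 ha)) j (Finset.mem_univ j)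
      rw [mo_conj, hα, kr1_base hZID hn hr h0 hz β hb, map_zero])
  exact hSEP n hn f hWS.1.1 fun α β a b ha hb => hmo (a + b) α β a b rfl ha hb

end Pool.Agent.H26.HBE
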