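import Pool.Agent.H27.HB.TA
import Pool.Agent.H27.HB.TF

/-! MP_8352e3_an, hbe_modules, rows KR0 and KR1: common lemmas. -/

set_option autoImplicit false

namespace Pool.Agent.H26.HBE
open MeasureTheory Set Filter Topology Pool.Agent.H80.HS Pool.Agent.H93.HQ Pool.Agent.H27.HB
open scoped ContDiff ENNReal

/-- vanishing of all the moments, by induction -/
theorem mom_ind (hMOM : T_MOM) {n : ℕ} (hn : 1 ≤ n) {μ : ℝ} {f : H n → ℝ} {g : H n → G n}
    (hWS : WS μ f g)
    (hbase : ∀ (α β : Fin n → ℕ) (a b : ℕ), (∑ j, α j) ≤ a → (∑ j, β j) ≤ b →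
      16 * ((n : ℂ) / 2 + a) * ((n : ℂ) / 2 + b) - (4 * (n : ℂ) ^ 2 + 16 * μ) = 0 →
      mo f α β a b = 0) :
    ∀ (N : ℕ) (α β : Fin n → ℕ) (a b : ℕ), a + b = N → (∑ j, α j) ≤ a → (∑ j, β j) ≤ b →
      mo f α β a b = 0 := by
  classical
  intro N
  induction N using Nat.strong_induction_on with
  | _ N ih =>
  intro α β a b hN ha hb
  by_cases hc : 16 * ((n : ℂ) / 2 + a) * ((n : ℂ) / 2 + b) - (4 * (n : ℂ) ^ 2 + 16 * μ) = 0
  · exact hbase α β a b ha hb hc
  have h1 := hMOM n hn μ f g hWS α β a b ha hb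
  have t1 : 8 * ((n : ℂ) / 2 + a) * ((b : ℂ) - ((∑ j, β j : ℕ) : ℂ)) * mo f α β a (b - 1) = 0 := by
    rcases hb.eq_or_lt with h2 | h2
    · rw [h2]
      simp
    · rw [ih (a + (b - 1)) (by omega) α β a (b - 1) rfl ha (by omega), mul_zero]
  have t2 : 8 * ((n : ℂ) / 2 + b) * ((a : ℂ) - ((∑ j, α j : ℕ) : ℂ)) * mo f α β (a - 1) b = 0 := by
    rcases ha.eq_or_lt with h2 | h2
    · rw [h2]
      simp
    · rw [ih ((a - 1) + b) (by omega) α β (a - 1) b rfl (by omega) hb, mul_zero]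
  have t3 : ∀ j, (α j : ℂ) * (β j : ℂ) * mo f (Function.update α j (α j - 1))
      (Function.update β j (β j - 1)) (a - 1) (b - 1) = 0 := by
    intro j
    rcases Nat.eq_zero_or_pos (α j) with h2 | h2
    · rw [h2]
      simp
    rcases Nat.eq_zero_or_pos (β j) with h3 | h3
    · rw [h3]
      simp
    have hs : ∀ γ : Fin n → ℕ, 0 < γ j →
        (∑ i, Function.update γ j (γ j - 1) i) + 1 = ∑ i, γ i := by
      intro γ hγ
      rw [← Finset.add_sum_erase _ _ (Finset.mem_univ j),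
        ← Finset.add_sum_erase Finset.univ γ (Finset.mem_univ j), Function.update_self]
      have h4 : ∑ i ∈ Finset.univ.erase j, Function.update γ j (γ j - 1) i =
          ∑ i ∈ Finset.univ.erase j, γ i :=
        Finset.sum_congr rfl fun i hi => by
          rw [Function.update_of_ne (Finset.ne_of_mem_erase hi)]
      rw [h4]
      omega
    have h4 := hs α h2
    have h5 := hs β h3
    rw [ih ((a - 1) + (b - 1)) (by omega) _ _ (a - 1) (b - 1) rfl (by omega) (by omega),
      mul_zero]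
  rw [t1, t2, Finset.sum_eq_zero fun j _ => t3 j, mul_zero, add_zero, add_zero] at h1
  exact (mul_eq_zero.1 h1).resolve_left hc

/-- the moments of a real function: complex conjugation -/
theorem mo_conj {n : ℕ} (f : H n → ℝ) (α β : Fin n → ℕ) (a b : ℕ) :
    mo f α β a b = starRingEnd ℂ (mo f β α b a) := by
  unfold mo
  rw [← integral_conj]
  congr 1
  funext z
  rw [map_mul, Complex.conj_ofReal]
  congr 1
  unfold EE
  simp only [map_div₀, map_mul, map_prod, map_pow, Complex.conj_conj, Complex.conj_ofReal]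
  ring

theorem ww_pos {n : ℕ} (z : H n) : 0 < ww z := by
  unfold ww
  have h1 := sq_nonneg' z
  positivity

theorem u0_pos {n : ℕ} (z : H n) : 0 < u0 n z := Real.rpow_pos_of_pos (ww_pos z) _

theorem EE_zero {n : ℕ} (z : H n) :
    EE (fun _ : Fin n => 0) (fun _ => 0) 0 0 z = ((u0 n z : ℝ) : ℂ) := by
  unfold EE
  simp

theorem LL_zero {n : ℕ} (z : H n) :
    LL (fun _ : Fin n => 0) (fun _ => 0) 0 0 z = ((4 * (n : ℝ) ^ 2 * u0 n z : ℝ) : ℂ) := by
  unfold LL
  rw [EE_zero]
  simp only [Finset.sum_const_zero, Nat.cast_zero, add_zero, sub_self, mul_zero, zero_mul,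
    sub_zero]
  push_cast
  ring

end Pool.Agent.H26.HBE
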