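import Pool.Agent.H27.HB.TA
import Pool.Agent.H27.HB.TD
import Pool.Agent.H27.HB.TG
import Pool.Agent.H26.HBE.KRB

/-! MP_8352e3_an, hbe_modules, row LIM: the limit of the optimal constants. -/

set_option autoImplicit false

namespace Pool.Agent.H26.HBE
open MeasureTheory Set Filter Topology Pool.Agent.H80.HS Pool.Agent.H93.HQ Pool.Agent.H27.HB
open scoped ENNReal

theorem ball_finite {n : ℕ} (R : ℝ) : volume {z : H n | N z < R} < ∞ := by
  refine lt_of_le_of_lt (measure_mono (t := Metric.closedBall (0 : H n) (|R| + R ^ 2)) ?_)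
    measure_closedBall_lt_top
  intro z hz
  have hz' : N z < R := hz
  have h0 := N_nonneg z
  have hR : |R| = R := abs_of_pos (lt_of_le_of_lt h0 hz')
  have h1 := mz_le_N z
  have h2 := mz_sq z
  have h3 := mz_nonneg z
  have h4 : ‖z.1‖ ≤ mz z := by
    refine abs_le_of_sq_le_sq' ?_ h3 |>.2
    rw [h2]
    unfold Pool.Agent.H93.HQ.sq
    nlinarith [sq_nonneg ‖z.2.1‖]
  have h5 : ‖z.2.1‖ ≤ mz z := by
    refine abs_le_of_sq_le_sq' ?_ h3 |>.2
    rw [h2]
    unfold Pool.Agent.H93.HQ.sq
    nlinarith [sq_nonneg ‖z.1‖]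
  have h6 : |z.2.2| ≤ N z ^ 2 := by
    refine abs_le_of_sq_le_sq ?_ (by positivity)
    have h7 := N_pow_four' z
    nlinarith [sq_nonneg (Pool.Agent.H93.HQ.sq z)]
  have h8 : N z ^ 2 ≤ R ^ 2 := by gcongr
  rw [mem_closedBall_zero_iff, Prod.norm_def, Prod.norm_def]
  refine max_le ?_ (max_le ?_ ?_)
  · nlinarith [sq_nonneg R]
  · nlinarith [sq_nonneg R]
  · rw [Real.norm_eq_abs]
    nlinarith [abs_nonneg R]

theorem ball_meas {n : ℕ} (R : ℝ) : MeasurableSet {z : H n | N z < R} :=
  (isOpen_lt continuous_N continuous_const).measurableSet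

theorem ub_props {n : ℕ} : Continuous (ub n) ∧ ∃ C : ℝ, 0 ≤ C ∧ ∀ z, |ub n z| ≤ C := by
  have hc : Continuous (u0 n) := by
    unfold u0
    refine Continuous.rpow_const ?_ fun z => Or.inl (ww_pos z).ne'
    unfold ww Pool.Agent.H93.HQ.sq
    fun_prop
  have h1 : ∀ z : H n, u0 n z ≤ 1 := by
    intro z
    unfold u0
    refine Real.rpow_le_one_of_one_le_of_nonpos ?_ ?_
    · unfold ww
      nlinarith [sq_nonneg' z, sq_nonneg z.2.2]
    · have : (0 : ℝ) ≤ n := Nat.cast_nonneg n
      linarith
  have h2 : 0 ≤ ms (ps n 2) (u0 n) ^ (-(1 / ps n 2)) := by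
    refine Real.rpow_nonneg ?_ _
    unfold ms
    exact integral_nonneg fun z => by positivity
  refine ⟨?_, _, h2, fun z => ?_⟩
  · unfold ub
    exact continuous_const.mul hc
  · unfold ub
    rw [abs_mul, abs_of_nonneg h2, abs_of_pos (u0_pos z)]
    exact mul_le_of_le_one_right h2 (h1 z)

theorem ext_neg (hCLA : T_CLA) {n : ℕ} (hn : 1 ≤ n) {p S : ℝ} (hp : 1 < p) (hp2 : p < 2 * n + 2)
    {u : H n → ℝ} {g : H n → G n} (h : Ext p S u g) :
    Ext p S (fun z => -u z) (fun z => -g z) := by
  obtain ⟨h1, h2, h3⟩ := h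
  refine ⟨?_, ?_, ?_⟩
  · have h4 := hCLA n hn p hp hp2 u u g g (-1) 0 h1 h1
    have e1 : (fun z => (-1) * u z + 0 * u z) = fun z => -u z := by
      funext z
      ring
    have e2 : (fun z => (-1 : ℝ) • g z + (0 : ℝ) • g z) = fun z => -g z := by
      funext z
      simp
    rwa [e1, e2] at h4
  · rw [← h2]
    unfold ms
    congr 1
    funext z
    rw [abs_neg]
  · rw [← h3]
    unfold en
    congr 1
    funext z
    rw [norm_neg]

theorem pf_LIM (hCTS : T_CTS) (hEXI : T_EXI) (hSGN : T_SGN) (hCLA : T_CLA) (hVIT : T_VIT) :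
    T_LIM := by
  intro n hn T hT ε hε
  have hn1 : (1 : ℝ) ≤ n := by exact_mod_cast hn
  by_contra hcon
  push Not at hcon
  have hstep : ∀ k : ℕ, ∃ (p S : ℝ) (u : H n → ℝ) (g : H n → G n), 2 - 1 / ((k : ℝ) + 2) < p ∧
      p < 2 ∧ Opt n p S ∧ Ext p S u g ∧ (∀ᵐ z, 0 ≤ u z) ∧ Cen (fun z => |u z| ^ ps n p) ∧
      (|S - T| < ε → ε ≤ ∫ z in {z : H n | N z < 1 / ε}, |u z - ub n z|) := by
    intro k
    have hk : (0 : ℝ) < 1 / ((k : ℝ) + 2) := by positivity
    have hk1 : 1 / ((k : ℝ) + 2) < 1 := by
      rw [div_lt_one (by positivity)]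
      have : (0 : ℝ) ≤ k := Nat.cast_nonneg k
      linarith
    obtain ⟨p, S, hp1, hp2, hopt, hh⟩ := hcon _ hk hk1
    by_cases hS : |S - T| < ε
    · obtain ⟨u, g, hE, hu, hC, hI⟩ := hh hS
      exact ⟨p, S, u, g, hp1, hp2, hopt, hE, hu, hC, fun _ => hI⟩
    · have hp0 : 1 < p := by linarith
      have hp3 : p < 2 * n + 2 := by linarith
      obtain ⟨u, g, hE, hC⟩ := hEXI n hn p S hp0 hp2.le hopt
      rcases hSGN n hn p S hp0 hp3 hopt u g hE with hu | hu
      · exact ⟨p, S, u, g, hp1, hp2, hopt, hE, hu, hC, fun h => absurd h hS⟩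
      · refine ⟨p, S, _, _, hp1, hp2, hopt, ext_neg hCLA hn hp0 hp3 hE, ?_, ?_,
          fun h => absurd h hS⟩
        · filter_upwards [hu] with z hz
          linarith
        · have e1 : (fun z => |(-u z)| ^ ps n p) = fun z => |u z| ^ ps n p := by
            funext z
            rw [abs_neg]
          rw [e1]
          exact hC
  choose p S u g hp1 hp2 hopt hE hu hC hI using hstep
  have hpk : ∀ k, 1 < p k := by
    intro k
    have h1 := hp1 k
    have h2 : 1 / ((k : ℝ) + 2) < 1 := by
      rw [div_lt_one (by positivity)]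
      have : (0 : ℝ) ≤ k := Nat.cast_nonneg k
      linarith
    linarith
  have hplim : Tendsto p atTop (𝓝 2) := by
    have h1 : Tendsto (fun k : ℕ => 2 - 1 / ((k : ℝ) + 2)) atTop (𝓝 2) := by
      have h2 : Tendsto (fun k : ℕ => 1 / ((k : ℝ) + 2)) atTop (𝓝 0) := by
        have h3 : Tendsto (fun k : ℕ => (k : ℝ) + 2) atTop atTop :=
          tendsto_natCast_atTop_atTop.atTop_add tendsto_const_nhds
        have h4 := tendsto_inv_atTop_zero.comp h3
        refine h4.congr fun k => ?_
        show ((k : ℝ) + 2)⁻¹ = 1 / ((k : ℝ) + 2)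
        rw [one_div]
      simpa using tendsto_const_nhds.sub h2
    exact tendsto_of_tendsto_of_tendsto_of_le_of_le h1 tendsto_const_nhds
      (fun k => (hp1 k).le) fun k => (hp2 k).le
  obtain ⟨σ, hσ, hae, htail, hSlim⟩ := hCTS n hn p S T u g (fun k => ⟨hpk k, (hp2 k).le⟩) hplim
    hopt hT hE hu hC
  obtain ⟨hubc, Cb, hCb0, hCb⟩ := ub_props (n := n)
  obtain ⟨B, hB⟩ : ∃ B : Set (H n), B = {z : H n | N z < 1 / ε} := ⟨_, rfl⟩
  have hBm : MeasurableSet B := by rw [hB]; exact ball_meas _
  have hBf : volume B < ∞ := by rw [hB]; exact ball_finite _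
  have hps : ∀ k, 1 ≤ ps n (p k) := by
    intro k
    unfold ps
    have h1 := hpk k
    have h2 := hp2 k
    rw [le_div_iff₀ (by linarith)]
    nlinarith
  have hui : ∀ k, IntegrableOn (fun z => u k z - ub n z) B := by
    intro k
    have : IsFiniteMeasure (volume.restrict B) :=
      ⟨by rw [Measure.restrict_apply_univ]; exact hBf⟩
    have h1 : MemLp (u k) 1 (volume.restrict B) := by
      refine ((hE k).1.1.restrict B).mono_exponent ?_
      rw [← ENNReal.ofReal_one]
      exact ENNReal.ofReal_le_ofReal (hps k)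
    have h2 : Integrable (ub n) (volume.restrict B) := by
      refine Integrable.of_bound hubc.aestronglyMeasurable Cb (Eventually.of_forall fun z => ?_)
      rw [Real.norm_eq_abs]
      exact hCb z
    exact (memLp_one_iff_integrable.1 h1).sub h2
  obtain ⟨F, hF⟩ : ∃ F : ℕ → H n → ℝ, ∀ k, F k = B.indicator (fun z => u (σ k) z - ub n z) :=
    ⟨fun k => B.indicator (fun z => u (σ k) z - ub n z), fun _ => rfl⟩
  have hFi : ∀ k, Integrable (F k) := by
    intro k
    rw [hF]
    exact (integrable_indicator_iff hBm).2 (hui (σ k))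
  have hvit := hVIT n F (fun _ => 0) (fun k => (hFi k).1) (by
    filter_upwards [hae] with z hz
    have h1 : Tendsto (fun k => u (σ k) z - ub n z) atTop (𝓝 0) := by
      have := hz.sub_const (ub n z)
      rwa [sub_self] at this
    by_cases hzB : z ∈ B
    · refine h1.congr fun k => ?_
      rw [hF, indicator_of_mem hzB]
    · refine tendsto_const_nhds.congr fun k => ?_
      rw [hF, indicator_of_notMem hzB]) (by
    intro η hη
    obtain ⟨M', R', hMR⟩ := htail (η / 2) (by positivity)
    refine ⟨max (max M' 1) Cb + Cb, 1 / ε, ?_⟩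
    filter_upwards [hMR] with k hk
    refine ⟨hFi k, ?_⟩
    obtain ⟨hk1, hk2⟩ := hk
    obtain ⟨P, hP⟩ : ∃ P : Set (H n), P = {z | max (max M' 1) Cb + Cb < |F k z| ∨ 1 / ε < N z} :=
      ⟨_, rfl⟩
    obtain ⟨Q, hQ⟩ : ∃ Q : Set (H n), Q = {z | M' < |u (σ k) z| ∨ R' < N z} := ⟨_, rfl⟩
    obtain ⟨U, hU⟩ : ∃ U : H n → ℝ, U = fun z => |u (σ k) z| ^ ps n (p (σ k)) := ⟨_, rfl⟩
    have hU0 : ∀ z, 0 ≤ U z := by
      intro z
      rw [hU]
      positivity
    have hFm : NullMeasurableSet P volume := by
      rw [hP]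
      refine NullMeasurableSet.union ?_ ?_
      · exact nullMeasurableSet_lt aemeasurable_const (hFi k).1.aemeasurable.abs
      · exact (isOpen_lt continuous_const continuous_N).measurableSet.nullMeasurableSet
    have hUm : NullMeasurableSet Q volume := by
      rw [hQ]
      refine NullMeasurableSet.union ?_ ?_
      · exact nullMeasurableSet_lt aemeasurable_const (hE (σ k)).1.1.1.aemeasurable.abs
      · exact (isOpen_lt continuous_const continuous_N).measurableSet.nullMeasurableSet
    have key : ∀ z, P.indicator (fun z => |F k z|) z ≤ 2 * Q.indicator U z := by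
      intro z
      have hpos : 0 ≤ Q.indicator U z := indicator_nonneg (fun z _ => hU0 z) z
      by_cases hzB : z ∈ B
      · by_cases hz1 : z ∈ P
        · have hzN : N z < 1 / ε := by rw [hB] at hzB; exact hzB
          have hz1' := hz1
          rw [hP] at hz1'
          have hz2 : max (max M' 1) Cb + Cb < |F k z| := by
            rcases hz1' with h | h
            · exact h
            · exact absurd h (not_lt.2 hzN.le)
          have hFz : F k z = u (σ k) z - ub n z := by rw [hF, indicator_of_mem hzB]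
          have h3 : |F k z| ≤ |u (σ k) z| + Cb := by
            rw [hFz]
            exact (abs_sub _ _).trans (by linarith [hCb z])
          have h4 : max (max M' 1) Cb < |u (σ k) z| := by linarith
          have h5 : M' < |u (σ k) z| :=
            lt_of_le_of_lt ((le_max_left _ _).trans (le_max_left _ _)) h4
          have h6 : 1 < |u (σ k) z| :=
            lt_of_le_of_lt ((le_max_right _ _).trans (le_max_left _ _)) h4
          have h7 : Cb < |u (σ k) z| := lt_of_le_of_lt (le_max_right _ _) h4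
          have h8 : |u (σ k) z| ≤ U z := by
            rw [hU]
            show |u (σ k) z| ≤ |u (σ k) z| ^ ps n (p (σ k))
            conv_lhs => rw [← Real.rpow_one |u (σ k) z|]
            exact Real.rpow_le_rpow_of_exponent_le h6.le (hps _)
          have hzQ : z ∈ Q := by
            rw [hQ]
            exact Or.inl h5
          rw [indicator_of_mem hz1, indicator_of_mem hzQ]
          linarith
        · rw [indicator_of_notMem hz1]
          linarith
      · have hFz : F k z = 0 := by rw [hF, indicator_of_notMem hzB]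
        have h9 : P.indicator (fun z => |F k z|) z = 0 := by
          by_cases hzP : z ∈ P
          · rw [indicator_of_mem hzP, hFz, abs_zero]
          · rw [indicator_of_notMem hzP]
        rw [h9]
        linarith
    rw [← hQ, ← hU, ← integral_indicator₀ hUm] at hk2
    rw [← hP, ← integral_indicator₀ hFm]
    have i1 : Integrable (P.indicator fun z => |F k z|) :=
      (hFi k).abs.integrableOn.integrable_indicator₀ hFm
    have i2 : Integrable (fun z => 2 * Q.indicator U z) := by
      rw [← hU] at hk1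
      exact (hk1.integrableOn.integrable_indicator₀ hUm).const_mul 2
    have h10 := integral_mono i1 i2 key
    rw [integral_const_mul] at h10
    linarith)
  have hlim := hvit.2.1
  have e1 : ∀ k, ∫ z, |F k z - 0| = ∫ z in B, |u (σ k) z - ub n z| := by
    intro k
    rw [← integral_indicator hBm]
    congr 1
    funext z
    rw [sub_zero, hF]
    by_cases hzB : z ∈ B
    · rw [indicator_of_mem hzB, indicator_of_mem hzB]
    · rw [indicator_of_notMem hzB, indicator_of_notMem hzB, abs_zero]
  have h1 : ∀ᶠ k in atTop, ∫ z, |F k z - 0| < ε :=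
    hlim.eventually (gt_mem_nhds hε)
  have h2 : ∀ᶠ k in atTop, |S (σ k) - T| < ε := by
    have h3 : Tendsto (fun k => |S (σ k) - T|) atTop (𝓝 0) := by
      have h4 := (hSlim.sub_const T).abs
      rwa [sub_self, abs_zero] at h4
    exact h3.eventually (gt_mem_nhds hε)
  obtain ⟨k, hk1, hk2⟩ := (h1.and h2).exists
  have h5 := hI (σ k) hk2
  rw [e1, hB] at hk1
  linarith

end Pool.Agent.H26.HBE
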