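import Pool.Agent.H27.HB.TD

/-! MP_8352e3_an, hbe_modules, row RIE: the gradient of a function of finite energy, by
duality. -/

set_option autoImplicit false

namespace Pool.Agent.H26.HBE
open MeasureTheory Set Filter Topology Pool.Agent.H80.HS Pool.Agent.H93.HQ Pool.Agent.H27.HB
open scoped ContDiff ENNReal

section rie

variable {n : ℕ}

theorem X_cont {φ : H n → ℝ} (h : Tst φ) (j : Fin n) :
    Continuous (X φ j) ∧ HasCompactSupport (X φ j) := by
  constructor
  · unfold X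
    refine (h.1.continuous_fderiv (by simp)).clm_apply ?_
    fun_prop
  · refine (h.2.fderiv ℝ).mono ?_
    intro p hp
    rw [Function.mem_support] at hp ⊢
    intro h0
    apply hp
    unfold X
    rw [h0]
    rfl

theorem Y_cont {φ : H n → ℝ} (h : Tst φ) (j : Fin n) :
    Continuous (Y φ j) ∧ HasCompactSupport (Y φ j) := by
  constructor
  · unfold Y
    refine (h.1.continuous_fderiv (by simp)).clm_apply ?_
    fun_prop
  · refine (h.2.fderiv ℝ).mono ?_
    intro p hp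
    rw [Function.mem_support] at hp ⊢
    intro h0
    apply hp
    unfold Y
    rw [h0]
    rfl

theorem Tst_diff {φ : H n → ℝ} (h : Tst φ) (z : H n) : DifferentiableAt ℝ φ z :=
  (h.1.differentiable (by simp)) z

theorem Tst_add {φ ψ : H n → ℝ} (h : Tst φ) (h' : Tst ψ) : Tst (φ + ψ) :=
  ⟨h.1.add h'.1, h.2.add h'.2⟩

theorem Tst_smul {φ : H n → ℝ} (c : ℝ) (h : Tst φ) : Tst (c • φ) :=
  ⟨contDiff_const.smul h.1, h.2.smul_left (f := fun _ => c)⟩

theorem X_add' {φ ψ : H n → ℝ} (h : Tst φ) (h' : Tst ψ) (j : Fin n) (z : H n) :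
    X (φ + ψ) j z = X φ j z + X ψ j z := by
  unfold X
  rw [fderiv_add (Tst_diff h z) (Tst_diff h' z)]
  rfl

theorem Y_add' {φ ψ : H n → ℝ} (h : Tst φ) (h' : Tst ψ) (j : Fin n) (z : H n) :
    Y (φ + ψ) j z = Y φ j z + Y ψ j z := by
  unfold Y
  rw [fderiv_add (Tst_diff h z) (Tst_diff h' z)]
  rfl

theorem X_smul' {φ : H n → ℝ} (c : ℝ) (h : Tst φ) (j : Fin n) (z : H n) :
    X (c • φ) j z = c * X φ j z := by
  unfold X
  rw [fderiv_const_smul (Tst_diff h z)]
  rfl

theorem Y_smul' {φ : H n → ℝ} (c : ℝ) (h : Tst φ) (j : Fin n) (z : H n) :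
    Y (c • φ) j z = c * Y φ j z := by
  unfold Y
  rw [fderiv_const_smul (Tst_diff h z)]
  rfl

/-- the space of test fields -/
def WF (n : ℕ) : Submodule ℝ (Fin n ⊕ Fin n → H n → ℝ) where
  carrier := {ψ | ∀ i, Tst (ψ i)}
  add_mem' := fun h h' i => Tst_add (h i) (h' i)
  zero_mem' := fun _ => ⟨contDiff_const, HasCompactSupport.zero⟩
  smul_mem' := fun c _ h i => Tst_smul c (h i)

/-- the divergence -/
noncomputable def dv (ψ : Fin n ⊕ Fin n → H n → ℝ) (z : H n) : ℝ :=
  ∑ j, (X (ψ (Sum.inl j)) j z + Y (ψ (Sum.inr j)) j z)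

theorem dv_cont {ψ : Fin n ⊕ Fin n → H n → ℝ} (h : ∀ i, Tst (ψ i)) :
    Continuous (dv ψ) ∧ HasCompactSupport (dv ψ) := by
  constructor
  · unfold dv
    exact continuous_finsetSum _ fun j _ =>
      (X_cont (h (Sum.inl j)) j).1.add (Y_cont (h (Sum.inr j)) j).1
  · have hK : IsCompact ((⋃ j, tsupport (X (ψ (Sum.inl j)) j)) ∪
        ⋃ j, tsupport (Y (ψ (Sum.inr j)) j)) :=
      (isCompact_iUnion fun j => (X_cont (h (Sum.inl j)) j).2).union
        (isCompact_iUnion fun j => (Y_cont (h (Sum.inr j)) j).2)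
    refine HasCompactSupport.intro hK fun z hz => ?_
    unfold dv
    refine Finset.sum_eq_zero fun j _ => ?_
    rw [mem_union, not_or, mem_iUnion, mem_iUnion, not_exists, not_exists] at hz
    rw [image_eq_zero_of_notMem_tsupport (hz.1 j), image_eq_zero_of_notMem_tsupport (hz.2 j),
      add_zero]

theorem u_dv_integrable {u : H n → ℝ} (hu : LocallyIntegrable u volume)
    {ψ : Fin n ⊕ Fin n → H n → ℝ} (h : ∀ i, Tst (ψ i)) :
    Integrable (fun z => u z * dv ψ z) := by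
  have h1 := hu.integrable_smul_left_of_hasCompactSupport (dv_cont h).1 (dv_cont h).2
  refine h1.congr (Eventually.of_forall fun z => ?_)
  exact mul_comm _ _

/-- the field as a function with values in `G n` -/
noncomputable def fl (ψ : Fin n ⊕ Fin n → H n → ℝ) (z : H n) : G n :=
  WithLp.toLp 2 (fun i => ψ i z)

theorem fl_memLp {ψ : Fin n ⊕ Fin n → H n → ℝ} (h : ∀ i, Tst (ψ i)) : MemLp (fl ψ) 2 volume := by
  have hc : Continuous (fl ψ) := by
    unfold fl
    exact (PiLp.continuous_toLp 2 _).comp (continuous_pi fun i => (h i).1.continuous)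
  have hK : IsCompact (⋃ i, tsupport (ψ i)) := isCompact_iUnion fun i => (h i).2
  have hs : HasCompactSupport (fl ψ) := by
    refine HasCompactSupport.intro hK fun z hz => ?_
    rw [mem_iUnion, not_exists] at hz
    unfold fl
    have : (fun i => ψ i z) = 0 := by
      funext i
      exact image_eq_zero_of_notMem_tsupport (hz i)
    rw [this]
    rfl
  exact hc.memLp_of_hasCompactSupport hs

/-- the field as an element of `L²` -/
noncomputable def JJ (n : ℕ) : WF n →ₗ[ℝ] Lp (G n) 2 (volume : Measure (H n)) where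
  toFun ψ := (fl_memLp ψ.2).toLp (fl ψ.1)
  map_add' := by
    intro ψ ψ'
    rw [← MemLp.toLp_add]
    rfl
  map_smul' := by
    intro c ψ
    rw [RingHom.id_apply, ← MemLp.toLp_const_smul]
    rfl

/-- the functional -/
noncomputable def ell (u : H n → ℝ) (hu : LocallyIntegrable u volume) : WF n →ₗ[ℝ] ℝ where
  toFun ψ := - ∫ z, u z * dv ψ.1 z
  map_add' := by
    intro ψ ψ'
    have h1 : (fun z => u z * dv (ψ + ψ').1 z) = fun z => u z * dv ψ.1 z + u z * dv ψ'.1 z := by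
      funext z
      unfold dv
      rw [← mul_add, ← Finset.sum_add_distrib]
      congr 1
      refine Finset.sum_congr rfl fun j _ => ?_
      have e1 := X_add' (ψ.2 (Sum.inl j)) (ψ'.2 (Sum.inl j)) j z
      have e2 := Y_add' (ψ.2 (Sum.inr j)) (ψ'.2 (Sum.inr j)) j z
      show X (ψ.1 (Sum.inl j) + ψ'.1 (Sum.inl j)) j z +
        Y (ψ.1 (Sum.inr j) + ψ'.1 (Sum.inr j)) j z = _
      rw [e1, e2]
      ring
    rw [h1, integral_add (u_dv_integrable hu ψ.2) (u_dv_integrable hu ψ'.2)]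
    ring
  map_smul' := by
    intro c ψ
    have h1 : (fun z => u z * dv (c • ψ).1 z) = fun z => c * (u z * dv ψ.1 z) := by
      funext z
      unfold dv
      rw [mul_left_comm, Finset.mul_sum, Finset.mul_sum, Finset.mul_sum]
      refine Finset.sum_congr rfl fun j _ => ?_
      have e1 := X_smul' c (ψ.2 (Sum.inl j)) j z
      have e2 := Y_smul' c (ψ.2 (Sum.inr j)) j z
      show u z * (X (c • ψ.1 (Sum.inl j)) j z + Y (c • ψ.1 (Sum.inr j)) j z) = _
      rw [e1, e2]
      ring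
    rw [h1, integral_const_mul, RingHom.id_apply, smul_eq_mul]
    ring

theorem normsq_fl (ψ : Fin n ⊕ Fin n → H n → ℝ) (z : H n) : ‖fl ψ z‖ ^ 2 = ∑ i, ψ i z ^ 2 := by
  unfold fl
  rw [EuclideanSpace.norm_sq_eq]
  refine Finset.sum_congr rfl fun i _ => ?_
  rw [Real.norm_eq_abs, sq_abs]

theorem normsq_lp (F : Lp (G n) 2 (volume : Measure (H n))) : ‖F‖ ^ 2 = ∫ z, ‖F z‖ ^ 2 := by
  rw [← real_inner_self_eq_norm_sq, L2.inner_def]
  congr 1
  funext z
  exact real_inner_self_eq_norm_sq _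

theorem inner_fl (x : G n) (ψ : Fin n ⊕ Fin n → H n → ℝ) (z : H n) :
    inner ℝ x (fl ψ z) = ∑ i, x i * ψ i z := by
  rw [PiLp.inner_apply]
  refine Finset.sum_congr rfl fun i _ => ?_
  unfold fl
  show inner ℝ (x i) (ψ i z) = _
  rw [real_inner_comm]
  rfl

theorem pf_RIE : T_RIE := by
  intro n _ u A hA hu hbd
  have hJn : ∀ ψ : WF n, ‖JJ n ψ‖ ^ 2 = ∫ z, ∑ i, ψ.1 i z ^ 2 := by
    intro ψ
    rw [normsq_lp]
    refine integral_congr_ae ?_
    have h1 : (JJ n ψ : H n → G n) =ᵐ[volume] fl ψ.1 := (fl_memLp ψ.2).coeFn_toLp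
    filter_upwards [h1] with z hz
    rw [hz, normsq_fl]
  have hbound : ∀ ψ : WF n, |ell u hu ψ| ≤ Real.sqrt A * ‖JJ n ψ‖ := by
    intro ψ
    have h1 := hbd ψ.1 ψ.2
    rw [← hJn ψ] at h1
    have h2 : |ell u hu ψ| = |∫ z, u z * dv ψ.1 z| := abs_neg _
    rw [h2]
    refine abs_le_of_sq_le_sq' ?_ (by positivity) |>.2
    rw [mul_pow, Real.sq_sqrt hA]
    exact h1
  obtain ⟨s, hs⟩ := (JJ n).rangeRestrict.exists_rightInverse_of_surjective
    (LinearMap.range_rangeRestrict _)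
  have hs' : ∀ y : LinearMap.range (JJ n), JJ n (s y) = y := by
    intro y
    have h1 := LinearMap.congr_fun hs y
    exact congrArg Subtype.val h1
  obtain ⟨ℓ', hℓ'⟩ : ∃ ℓ' : LinearMap.range (JJ n) →L[ℝ] ℝ,
      (∀ y, ℓ' y = ell u hu (s y)) ∧ ‖ℓ'‖ ≤ Real.sqrt A :=
    ⟨((ell u hu).comp s).mkContinuous (Real.sqrt A) (fun y => by
      rw [Real.norm_eq_abs]
      have h1 := hbound (s y)
      rw [hs'] at h1
      exact h1), fun _ => rfl, LinearMap.mkContinuous_norm_le _ (Real.sqrt_nonneg _) _⟩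
  obtain ⟨L, hL1, hL2⟩ := exists_extension_norm_eq _ ℓ'
  obtain ⟨F, hF⟩ : ∃ F : Lp (G n) 2 (volume : Measure (H n)),
      F = (InnerProductSpace.toDual ℝ _).symm L := ⟨_, rfl⟩
  have hFi : ∀ y, inner ℝ F y = L y := by
    intro y
    rw [hF]
    exact InnerProductSpace.toDual_symm_apply
  have hFn : ‖F‖ ≤ Real.sqrt A := by
    rw [hF, LinearIsometryEquiv.norm_map, hL2]
    exact hℓ'.2
  refine ⟨F, Lp.memLp F, ?_, ?_⟩
  · have h1 : en 2 (F : H n → G n) = ‖F‖ ^ 2 := by
      rw [normsq_lp]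
      unfold en
      congr 1
      funext z
      rw [← Real.rpow_natCast]
      norm_num
    rw [h1]
    calc ‖F‖ ^ 2 ≤ Real.sqrt A ^ 2 := by gcongr
      _ = A := Real.sq_sqrt hA
  · intro ψ hψ
    obtain ⟨w, hw⟩ : ∃ w : WF n, w.1 = ψ := ⟨⟨ψ, hψ⟩, rfl⟩
    have h1 : L (JJ n w) = ell u hu w := by
      have h2 := hL1 ⟨JJ n w, LinearMap.mem_range_self _ w⟩
      have h3 : L (JJ n w) = ℓ' ⟨JJ n w, LinearMap.mem_range_self _ w⟩ := h2
      rw [h3, hℓ'.1]
      have h4 := hbound (s ⟨JJ n w, LinearMap.mem_range_self _ w⟩ - w)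
      rw [map_sub, map_sub, hs'] at h4
      simp only [sub_self, norm_zero, mul_zero] at h4
      exact sub_eq_zero.1 (abs_nonpos_iff.1 h4)
    rw [← hFi, L2.inner_def] at h1
    have h5 : ∫ z, inner ℝ ((F : H n → G n) z) ((JJ n w : H n → G n) z) =
        ∫ z, ∑ i, (F : H n → G n) z i * ψ i z := by
      refine integral_congr_ae ?_
      have h6 : (JJ n w : H n → G n) =ᵐ[volume] fl w.1 := (fl_memLp w.2).coeFn_toLp
      filter_upwards [h6] with z hz
      rw [hz, inner_fl, hw]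
    rw [h5] at h1
    have h7 : ell u hu w = - ∫ z, u z * dv ψ z := by
      rw [← hw]
      rfl
    rw [h7] at h1
    show ∫ z, u z * dv ψ z = _
    rw [h1, neg_neg]

end rie

end Pool.Agent.H26.HBE
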